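import Mathlib

/-!
# Cubes in a filtered group and the corner lemma
-/

set_option autoImplicit false

namespace Pool.Agent.Helper958.ExpP

open scoped commutatorElement

variable {G : Type} [Group G]

/-- cubes of dimension `k` -/
def Cube (G : Type) : ℕ → Type
  | 0 => G
  | k + 1 => Cube G k × Cube G k

/-- the pointwise group structure on cubes -/
def cubeGroup (G : Type) [Group G] : (k : ℕ) → Group (Cube G k)
  | 0 => (inferInstance : Group G)
  | k + 1 =>
    letI := cubeGroup G k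
    (inferInstance : Group (Cube G k × Cube G k))

instance (k : ℕ) : Group (Cube G k) := cubeGroup G k

/-- the cubes adapted to a filtration, shifted by `s` -/
def HK (F : ℕ → Subgroup G) : (k : ℕ) → ℕ → Set (Cube G k)
  | 0, s => {x : G | x ∈ F s}
  | k + 1, s => {x : Cube G k × Cube G k | x.1 ∈ HK F k s ∧ x.1⁻¹ * x.2 ∈ HK F k (s + 1)}

theorem mk_mem {F : ℕ → Subgroup G} {k s : ℕ} (x y : Cube G k) :
    ((x, y) : Cube G (k + 1)) ∈ HK F (k + 1) s ↔ x ∈ HK F k s ∧ x⁻¹ * y ∈ HK F k (s + 1) :=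
  Iff.rfl

/-- closure properties -/
structure Good (F : ℕ → Subgroup G) (k : ℕ) : Prop where
  one : ∀ s, (1 : Cube G k) ∈ HK F k s
  mul : ∀ s (x y : Cube G k), x ∈ HK F k s → y ∈ HK F k s → x * y ∈ HK F k s
  inv : ∀ s (x : Cube G k), x ∈ HK F k s → x⁻¹ ∈ HK F k s
  mono : ∀ s (x : Cube G k), x ∈ HK F k (s + 1) → x ∈ HK F k s
  comm : ∀ s t (x y : Cube G k), x ∈ HK F k s → y ∈ HK F k t → ⁅x, y⁆ ∈ HK F k (s + t)

theorem Good.mono_add {F : ℕ → Subgroup G} {k : ℕ} (h : Good F k) (s t : ℕ) (x : Cube G k)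
    (hx : x ∈ HK F k (s + t)) : x ∈ HK F k t := by
  induction s with
  | zero => simpa using hx
  | succ s ih =>
    apply ih
    apply h.mono
    have e : s + 1 + t = s + t + 1 := by ring
    rw [e] at hx
    exact hx

theorem Good.conj {F : ℕ → Subgroup G} {k : ℕ} (h : Good F k) (s t : ℕ) (x d : Cube G k)
    (hx : x ∈ HK F k s) (hd : d ∈ HK F k t) : x * d * x⁻¹ ∈ HK F k t := by
  have h1 := h.mono_add s t _ (h.comm s t x d hx hd)
  have h2 := h.mul t _ _ h1 hd
  have e : ⁅x, d⁆ * d = x * d * x⁻¹ := by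
    rw [commutatorElement_def]
    group
  rwa [e] at h2

theorem Good.conj' {F : ℕ → Subgroup G} {k : ℕ} (h : Good F k) (s t : ℕ) (x d : Cube G k)
    (hx : x ∈ HK F k s) (hd : d ∈ HK F k t) : x⁻¹ * d * x ∈ HK F k t := by
  have h1 := h.conj s t x⁻¹ d (h.inv s x hx) hd
  rwa [inv_inv] at h1

theorem good (F : ℕ → Subgroup G) (hmono : ∀ s, F (s + 1) ≤ F s)
    (hcomm : ∀ s t x y, x ∈ F s → y ∈ F t → ⁅x, y⁆ ∈ F (s + t)) (k : ℕ) : Good F k := by
  induction k with
  | zero =>
    exact ⟨fun s => (F s).one_mem, fun s x y hx hy => (F s).mul_mem hx hy,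
      fun s x hx => (F s).inv_mem hx, fun s x hx => hmono s hx, hcomm⟩
  | succ k ih =>
    refine ⟨?_, ?_, ?_, ?_, ?_⟩
    · intro s
      refine (mk_mem (1 : Cube G k) 1).2 ⟨ih.one s, ?_⟩
      rw [inv_one, one_mul]
      exact ih.one _
    · rintro s ⟨x, y⟩ ⟨x', y'⟩ h h'
      obtain ⟨h1, h2⟩ := (mk_mem x y).1 h
      obtain ⟨h1', h2'⟩ := (mk_mem x' y').1 h'
      refine (mk_mem (x * x') (y * y')).2 ⟨ih.mul s _ _ h1 h1', ?_⟩
      have e : (x * x')⁻¹ * (y * y') = (x'⁻¹ * (x⁻¹ * y) * x') * (x'⁻¹ * y') := by group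
      rw [e]
      exact ih.mul _ _ _ (ih.conj' s (s + 1) x' _ h1' h2) h2'
    · rintro s ⟨x, y⟩ h
      obtain ⟨h1, h2⟩ := (mk_mem x y).1 h
      refine (mk_mem (x⁻¹) (y⁻¹)).2 ⟨ih.inv s _ h1, ?_⟩
      have e : (x⁻¹)⁻¹ * y⁻¹ = x * (x⁻¹ * y)⁻¹ * x⁻¹ := by group
      rw [e]
      exact ih.conj s (s + 1) x _ h1 (ih.inv _ _ h2)
    · rintro s ⟨x, y⟩ h
      obtain ⟨h1, h2⟩ := (mk_mem x y).1 h
      exact (mk_mem x y).2 ⟨ih.mono s _ h1, ih.mono _ _ h2⟩
    · rintro s t ⟨x, y⟩ ⟨u, v⟩ h h'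
      obtain ⟨h1, h2⟩ := (mk_mem x y).1 h
      obtain ⟨h1', h2'⟩ := (mk_mem u v).1 h'
      refine (mk_mem ⁅x, u⁆ ⁅y, v⁆).2 ⟨ih.comm s t _ _ h1 h1', ?_⟩
      set d := x⁻¹ * y with hd
      set e := u⁻¹ * v with he
      have hy : y = x * d := by rw [hd]; group
      have hv : v = u * e := by rw [he]; group
      have key : ⁅x, u⁆⁻¹ * ⁅y, v⁆ =
          (⁅x, u⁆⁻¹ * (x * (⁅d, u⁆ * (u * ⁅d, e⁆ * u⁻¹)) * x⁻¹) * ⁅x, u⁆) *
            (u * ⁅x, e⁆ * u⁻¹) := by
        rw [hy, hv]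
        simp only [commutatorElement_def]
        group
      rw [key]
      have c1 : ⁅d, u⁆ ∈ HK F k (s + t + 1) := by
        have := ih.comm (s + 1) t d u h2 h1'
        have e1 : s + 1 + t = s + t + 1 := by ring
        rwa [e1] at this
      have c2 : ⁅d, e⁆ ∈ HK F k (s + t + 1) := by
        have := ih.comm (s + 1) (t + 1) d e h2 h2'
        have e1 : s + 1 + (t + 1) = s + t + 1 + 1 := by ring
        rw [e1] at this
        exact ih.mono _ _ this
      have c3 : ⁅x, e⁆ ∈ HK F k (s + t + 1) := by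
        have := ih.comm s (t + 1) x e h1 h2'
        exact this
      have c4 := ih.mul _ _ _ c1 (ih.conj t _ u _ h1' c2)
      have c5 := ih.conj s _ x _ h1 c4
      have c6 := ih.conj' (s + t) _ ⁅x, u⁆ _ (ih.comm s t _ _ h1 h1') c5
      exact ih.mul _ _ _ c6 (ih.conj t _ u _ h1' c3)

/-- vertex of a cube -/
def ev : (k : ℕ) → Cube G k → (ℕ → Bool) → G
  | 0, x, _ => x
  | k + 1, x, b => if b k then ev k (x : Cube G k × Cube G k).2 b
      else ev k (x : Cube G k × Cube G k).1 b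

theorem ev_succ (k : ℕ) (x y : Cube G k) (b : ℕ → Bool) :
    ev (k + 1) ((x, y) : Cube G (k + 1)) b = if b k then ev k y b else ev k x b := rfl

theorem ev_mul (k : ℕ) (x y : Cube G k) (b : ℕ → Bool) :
    ev k (x * y) b = ev k x b * ev k y b := by
  induction k with
  | zero => rfl
  | succ k ih =>
    obtain ⟨x1, x2⟩ := x
    obtain ⟨y1, y2⟩ := y
    show (if b k then ev k (x2 * y2) b else ev k (x1 * y1) b) =
      (if b k then ev k x2 b else ev k x1 b) * (if b k then ev k y2 b else ev k y1 b)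
    split_ifs
    · exact ih _ _
    · exact ih _ _

theorem ev_one (k : ℕ) (b : ℕ → Bool) : ev k (1 : Cube G k) b = 1 := by
  have h := ev_mul k (1 : Cube G k) 1 b
  rw [mul_one] at h
  exact (left_eq_mul.1 h)

theorem ev_inv (k : ℕ) (x : Cube G k) (b : ℕ → Bool) : ev k x⁻¹ b = (ev k x b)⁻¹ := by
  have h := ev_mul k x⁻¹ x b
  rw [inv_mul_cancel, ev_one] at h
  exact eq_inv_of_mul_eq_one_left h.symm

theorem ev_pow (k : ℕ) (x : Cube G k) (n : ℕ) (b : ℕ → Bool) :
    ev k (x ^ n) b = (ev k x b) ^ n := by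
  induction n with
  | zero => rw [pow_zero, pow_zero, ev_one]
  | succ n ih => rw [pow_succ, pow_succ, ev_mul, ih]

theorem ev_congr (k : ℕ) (x : Cube G k) (b b' : ℕ → Bool) (h : ∀ i < k, b i = b' i) :
    ev k x b = ev k x b' := by
  induction k with
  | zero => rfl
  | succ k ih =>
    obtain ⟨x1, x2⟩ := x
    rw [ev_succ, ev_succ, h k (Nat.lt_succ_self k),
      ih x1 fun i hi => h i (Nat.lt_succ_of_lt hi), ih x2 fun i hi => h i (Nat.lt_succ_of_lt hi)]

/-- The corner lemma. -/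
theorem corner (F : ℕ → Subgroup G) (k : ℕ) : ∀ (s : ℕ) (x : Cube G k), x ∈ HK F k s →
    (∀ b : ℕ → Bool, (∃ i < k, b i = false) → ev k x b = 1) →
    ev k x (fun _ => true) ∈ F (s + k) := by
  induction k with
  | zero => exact fun s x hx _ => hx
  | succ k ih =>
    rintro s ⟨x0, x1⟩ hx hb
    obtain ⟨h0, h1⟩ := (mk_mem x0 x1).1 hx
    have hx0 : ∀ b, ev k x0 b = 1 := by
      intro b
      have h2 := hb (Function.update b k false) ⟨k, Nat.lt_succ_self k, by simp⟩
      rw [ev_succ] at h2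
      simp only [Function.update_self, Bool.false_eq_true, if_false] at h2
      rw [← h2]
      refine ev_congr k x0 _ _ fun i hi => ?_
      rw [Function.update_of_ne hi.ne]
    have h2 := ih (s + 1) (x0⁻¹ * x1) h1 (by
      rintro b ⟨i, hi, hbi⟩
      rw [ev_mul, ev_inv, hx0, inv_one, one_mul]
      have h3 := hb (Function.update b k true) ⟨i, Nat.lt_succ_of_lt hi, by
        rw [Function.update_of_ne hi.ne]; exact hbi⟩
      rw [ev_succ] at h3
      simp only [Function.update_self, if_true] at h3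
      rw [← h3]
      refine ev_congr k x1 _ _ fun j hj => ?_
      rw [Function.update_of_ne hj.ne])
    rw [ev_mul, ev_inv, hx0, inv_one, one_mul] at h2
    rw [ev_succ]
    simp only [if_true]
    have e : s + 1 + k = s + (k + 1) := by ring
    rw [e] at h2
    exact h2

/-- constant cubes -/
def cst (a : G) : (k : ℕ) → Cube G k
  | 0 => a
  | k + 1 => ((cst a k, cst a k) : Cube G k × Cube G k)

theorem cst_mem (F : ℕ → Subgroup G) (hg : ∀ k, Good F k) (a : G) (k s : ℕ) (ha : a ∈ F s) :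
    cst a k ∈ HK F k s := by
  induction k generalizing s with
  | zero => exact ha
  | succ k ih =>
    refine (mk_mem (cst a k) (cst a k)).2 ⟨ih s ha, ?_⟩
    rw [inv_mul_cancel]
    exact (hg k).one _

theorem ev_cst (a : G) (k : ℕ) (b : ℕ → Bool) : ev k (cst a k) b = a := by
  induction k with
  | zero => rfl
  | succ k ih =>
    have e : cst a (k + 1) = ((cst a k, cst a k) : Cube G (k + 1)) := rfl
    rw [e, ev_succ, ih]
    split_ifs <;> rfl

/-- the cube of the ordered products of subfamilies of `a 0, …, a (k-1)` -/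
def pcube (a : ℕ → G) : (k : ℕ) → Cube G k
  | 0 => (1 : G)
  | k + 1 => ((pcube a k, pcube a k * cst (a k) k) : Cube G k × Cube G k)

/-- ordered products of subfamilies -/
def pr (a : ℕ → G) : ℕ → (ℕ → Bool) → G
  | 0, _ => 1
  | k + 1, b => if b k then pr a k b * a k else pr a k b

theorem pcube_mem (F : ℕ → Subgroup G) (hg : ∀ k, Good F k) (a : ℕ → G) (h1 : ∀ g, g ∈ F 1)
    (k : ℕ) : pcube a k ∈ HK F k 0 := by
  induction k with
  | zero => exact (F 0).one_mem
  | succ k ih =>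
    refine (mk_mem (pcube a k) (pcube a k * cst (a k) k)).2 ⟨ih, ?_⟩
    rw [inv_mul_cancel_left]
    exact cst_mem F hg (a k) k 1 (h1 _)

theorem ev_pcube (a : ℕ → G) (k : ℕ) (b : ℕ → Bool) : ev k (pcube a k) b = pr a k b := by
  induction k with
  | zero => rfl
  | succ k ih =>
    have e : pcube a (k + 1) = ((pcube a k, pcube a k * cst (a k) k) : Cube G (k + 1)) := rfl
    rw [e, ev_succ, ev_mul, ev_cst, ih]
    rfl

/-- If all proper ordered subproducts have trivial `p`-th power, and the `k`-th term of the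
filtration is trivial, then the full product has trivial `p`-th power. -/
theorem corner_pow (F : ℕ → Subgroup G) (hmono : ∀ s, F (s + 1) ≤ F s)
    (hcomm : ∀ s t x y, x ∈ F s → y ∈ F t → ⁅x, y⁆ ∈ F (s + t)) (h1 : ∀ g, g ∈ F 1)
    (k : ℕ) (hk : F k = ⊥) (a : ℕ → G) (n : ℕ)
    (ha : ∀ b : ℕ → Bool, (∃ i < k, b i = false) → (pr a k b) ^ n = 1) :
    (pr a k fun _ => true) ^ n = 1 := by
  have hg := good F hmono hcomm
  have hmem : ∀ m : ℕ, (pcube a k) ^ m ∈ HK F k 0 := by
    intro m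
    induction m with
    | zero => rw [pow_zero]; exact (hg k).one 0
    | succ m ih =>
      rw [pow_succ]
      exact (hg k).mul 0 _ _ ih (pcube_mem F hg a h1 k)
  have h2 := corner F k 0 ((pcube a k) ^ n) (hmem n) (by
    intro b hb
    rw [ev_pow, ev_pcube]
    exact ha b hb)
  rw [zero_add, hk, Subgroup.mem_bot, ev_pow, ev_pcube] at h2
  exact h2

end Pool.Agent.Helper958.ExpP
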