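import Mathlib
import Pool.Agent.Helper958.ExpP.Cube

/-!
# The lower central series as a filtration; Fitting's theorem with class bound
-/

set_option autoImplicit false

namespace Pool.Agent.Helper958.ExpP

open scoped commutatorElement
open Subgroup

variable {G : Type} [Group G]

/-- terms of the lower central series, `LL 0 = G` -/
abbrev LL (G : Type) [Group G] (n : ℕ) : Subgroup G := (⊤ : Subgroup G).lowerCentralSeries n

theorem three (A B C N : Subgroup G) [N.Normal] (h1 : ⁅⁅B, C⁆, A⁆ ≤ N) (h2 : ⁅⁅C, A⁆, B⁆ ≤ N) :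
    ⁅⁅A, B⁆, C⁆ ≤ N := by
  have hk : ∀ X : Subgroup G, X.map (QuotientGroup.mk' N) = ⊥ ↔ X ≤ N := by
    intro X
    rw [Subgroup.map_eq_bot_iff, QuotientGroup.ker_mk']
  rw [← hk] at h1 h2 ⊢
  rw [map_commutator, map_commutator] at h1 h2 ⊢
  exact commutator_commutator_eq_bot_of_rotate h1 h2

theorem comm_LL (j : ℕ) : ∀ i : ℕ, ⁅LL G i, LL G j⁆ ≤ LL G (i + j + 1) := by
  induction j with
  | zero => exact fun i => le_rfl
  | succ j ih =>
    intro i
    have e : ⁅LL G i, LL G (j + 1)⁆ = ⁅⁅LL G j, (⊤ : Subgroup G)⁆, LL G i⁆ :=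
      commutator_comm _ _
    rw [e]
    refine three _ _ _ _ ?_ ?_
    · have h1 := ih (i + 1)
      have e1 : i + 1 + j + 1 = i + (j + 1) + 1 := by ring
      rw [e1] at h1
      refine le_trans (commutator_mono ?_ le_rfl) h1
      rw [commutator_comm]
      exact le_rfl
    · exact commutator_mono (ih i) le_rfl

/-- the filtration -/
def FF (G : Type) [Group G] : ℕ → Subgroup G
  | 0 => ⊤
  | n + 1 => LL G n

theorem FF_mono (s : ℕ) : FF G (s + 1) ≤ FF G s := by
  cases s with
  | zero => exact le_top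
  | succ s => exact Subgroup.lowerCentralSeries_antitone _ (Nat.le_succ s)

theorem FF_comm (s t : ℕ) (x y : G) (hx : x ∈ FF G s) (hy : y ∈ FF G t) :
    ⁅x, y⁆ ∈ FF G (s + t) := by
  cases s with
  | zero =>
    rw [zero_add]
    cases t with
    | zero => exact mem_top _
    | succ t =>
      have h1 : ⁅(⊤ : Subgroup G), LL G t⁆ ≤ LL G t := commutator_le_right _ _
      exact h1 (commutator_mem_commutator (mem_top x) hy)
  | succ s =>
    cases t with
    | zero =>
      have h1 : ⁅LL G s, (⊤ : Subgroup G)⁆ ≤ LL G s := commutator_le_left _ _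
      exact h1 (commutator_mem_commutator hx (mem_top y))
    | succ t =>
      have e : s + 1 + (t + 1) = (s + t + 1) + 1 := by ring
      rw [e]
      exact comm_LL t s (commutator_mem_commutator hx hy)

/-- shifted lower central series of a subgroup -/
def hh (H : Subgroup G) : ℕ → Subgroup G
  | 0 => ⊤
  | n + 1 => H.lowerCentralSeries n

instance hh_normal (H : Subgroup G) [H.Normal] (n : ℕ) : (hh H n).Normal := by
  cases n with
  | zero => exact (inferInstance : (⊤ : Subgroup G).Normal)
  | succ n => exact (inferInstance : (H.lowerCentralSeries n).Normal)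

theorem hh_comm (H : Subgroup G) [H.Normal] (n : ℕ) (x y : G) (hx : x ∈ hh H n) (hy : y ∈ H) :
    ⁅x, y⁆ ∈ hh H (n + 1) := by
  cases n with
  | zero =>
    have h1 : ⁅(⊤ : Subgroup G), H⁆ ≤ H := commutator_le_right _ _
    exact h1 (commutator_mem_commutator (mem_top x) hy)
  | succ n => exact commutator_mem_commutator hx hy

theorem normal_comm (N : Subgroup G) [hN : N.Normal] (x y : G) (hx : x ∈ N) : ⁅x, y⁆ ∈ N := by
  have h1 : ⁅N, (⊤ : Subgroup G)⁆ ≤ N := commutator_le_left _ _
  exact h1 (commutator_mem_commutator hx (mem_top y))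

theorem fit_aux (H K : Subgroup G) [H.Normal] [K.Normal] (hHK : H ⊔ K = ⊤) (n : ℕ) :
    ∀ (N : Subgroup G) [N.Normal], (∀ i j, i + j = n + 1 → hh H i ⊓ hh K j ≤ N) → LL G n ≤ N := by
  induction n with
  | zero =>
    intro N _ hN
    have h1 := hN 1 0 rfl
    have h2 := hN 0 1 rfl
    show (⊤ : Subgroup G) ≤ N
    rw [← hHK]
    refine sup_le ?_ ?_
    · exact le_trans (le_inf le_rfl le_top) h1
    · exact le_trans (le_inf le_top le_rfl) h2
  | succ n ih =>
    intro N _ hN
    have h1 := ih ((center (G ⧸ N)).comap (QuotientGroup.mk' N)) (by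
      intro i j hij x hx
      rw [mem_comap, mem_center_iff]
      have hcomm : ∀ y : G, ⁅x, y⁆ ∈ N ↔
          y ∈ (centralizer {QuotientGroup.mk' N x}).comap (QuotientGroup.mk' N) := by
        intro y
        rw [mem_comap, mem_centralizer_singleton_iff, ← QuotientGroup.eq_one_iff]
        have e1 : ((⁅x, y⁆ : G) : G ⧸ N) =
            ⁅QuotientGroup.mk' N x, QuotientGroup.mk' N y⁆ := rfl
        rw [e1, commutatorElement_eq_one_iff_mul_comm]
        exact eq_comm
      have h2 : (⊤ : Subgroup G) ≤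
          (centralizer {QuotientGroup.mk' N x}).comap (QuotientGroup.mk' N) := by
        rw [← hHK]
        refine sup_le ?_ ?_
        · intro y hy
          rw [← hcomm]
          refine hN (i + 1) j (by omega) ⟨hh_comm H i x y hx.1 hy, ?_⟩
          exact normal_comm (hh K j) x y hx.2
        · intro y hy
          rw [← hcomm]
          refine hN i (j + 1) (by omega) ⟨?_, hh_comm K j x y hx.2 hy⟩
          exact normal_comm (hh H i) x y hx.1
      intro z
      obtain ⟨y, rfl⟩ := QuotientGroup.mk'_surjective N z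
      have h3 := h2 (mem_top y)
      rw [mem_comap, mem_centralizer_singleton_iff] at h3
      exact h3)
    show ⁅LL G n, (⊤ : Subgroup G)⁆ ≤ N
    rw [commutator_le]
    intro x hx y _
    have h2 := h1 hx
    rw [mem_comap, mem_center_iff] at h2
    rw [← QuotientGroup.eq_one_iff]
    have e1 : ((⁅x, y⁆ : G) : G ⧸ N) = ⁅QuotientGroup.mk' N x, QuotientGroup.mk' N y⁆ := rfl
    rw [e1, commutatorElement_eq_one_iff_mul_comm]
    exact (h2 _).symm

/-- Fitting's theorem. -/
theorem fitting (H K : Subgroup G) [H.Normal] [K.Normal] (hHK : H ⊔ K = ⊤) (c : ℕ)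
    (hH : H.lowerCentralSeries c = ⊥) (hK : K.lowerCentralSeries c = ⊥) :
    LL G (2 * c) = ⊥ := by
  rw [eq_bot_iff]
  refine fit_aux H K hHK (2 * c) ⊥ ?_
  intro i j hij
  by_cases hi : c + 1 ≤ i
  · obtain ⟨t, rfl⟩ : ∃ t, i = t + 1 := ⟨i - 1, by omega⟩
    have h1 : H.lowerCentralSeries t ≤ H.lowerCentralSeries c :=
      Subgroup.lowerCentralSeries_antitone _ (by omega)
    rw [hH] at h1
    exact inf_le_left.trans h1
  · obtain ⟨t, rfl⟩ : ∃ t, j = t + 1 := ⟨j - 1, by omega⟩
    have h1 : K.lowerCentralSeries t ≤ K.lowerCentralSeries c :=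
      Subgroup.lowerCentralSeries_antitone _ (by omega)
    rw [hK] at h1
    exact inf_le_right.trans h1

end Pool.Agent.Helper958.ExpP
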