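import Mathlib

/-!
# A nilpotency lemma in commutative rings of characteristic `p`
-/

set_option autoImplicit false

namespace Pool.Agent.Helper958.ExpP

theorem vand (p : ℕ) [Fact p.Prime] {R : Type} [AddCommGroup R] [Module (ZMod p) R] (v : ℕ → R)
    (n : ℕ) (hn : n < p)
    (h : ∀ l : ZMod p, ∑ k ∈ Finset.range (n + 1), (l ^ k) • v k = 0) (j : ℕ) (hj : j ≤ n) :
    v j = 0 := by
  classical
  rw [← Module.forall_dual_apply_eq_zero_iff (ZMod p)]
  intro f
  let P : Polynomial (ZMod p) := ∑ k ∈ Finset.range (n + 1), Polynomial.C (f (v k)) * Polynomial.X ^ k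
  have hdeg : P.degree < (n + 1 : ℕ) := by
    refine lt_of_le_of_lt (Polynomial.degree_sum_le _ _) ?_
    rw [Finset.sup_lt_iff (by exact WithBot.bot_lt_coe _)]
    intro k hk
    refine lt_of_le_of_lt (Polynomial.degree_C_mul_X_pow_le k _) ?_
    exact_mod_cast Finset.mem_range.1 hk
  have hP : P = 0 := by
    refine Polynomial.eq_zero_of_degree_lt_of_eval_finset_eq_zero (Finset.univ : Finset (ZMod p))
      ?_ ?_
    · rw [Finset.card_univ, ZMod.card]
      exact lt_of_lt_of_le hdeg (by exact_mod_cast hn)
    · intro l _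
      have h1 := congrArg f (h l)
      rw [map_sum, map_zero] at h1
      rw [Polynomial.eval_finset_sum, ← h1]
      refine Finset.sum_congr rfl fun k _ => ?_
      rw [Polynomial.eval_mul, Polynomial.eval_C, Polynomial.eval_pow, Polynomial.eval_X,
        map_smul, smul_eq_mul, mul_comm]
  have h2 : P.coeff j = f (v j) := by
    rw [Polynomial.finset_sum_coeff]
    rw [Finset.sum_eq_single j]
    · rw [Polynomial.coeff_C_mul, Polynomial.coeff_X_pow, if_pos rfl, mul_one]
    · intro b _ hb
      rw [Polynomial.coeff_C_mul, Polynomial.coeff_X_pow, if_neg (Ne.symm hb), mul_zero]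
    · intro h3
      exact absurd (Finset.mem_range.2 (by omega)) h3
  rw [← h2, hP, Polynomial.coeff_zero]

variable {R : Type} [CommRing R] {Γ : Type} [Group Γ]

theorem pow_add_mod (J : Ideal R) (u e : R) (hu : u ∈ J) (he : e ∈ J ^ 2) (r : ℕ) :
    ∃ η ∈ J ^ (r + 1), (u + e) ^ r = u ^ r + η := by
  induction r with
  | zero => exact ⟨0, Ideal.zero_mem _, by simp⟩
  | succ r ih =>
    obtain ⟨η, hη, h⟩ := ih
    refine ⟨u ^ r * e + η * u + η * e, ?_, ?_⟩
    · refine Ideal.add_mem _ (Ideal.add_mem _ ?_ ?_) ?_
      · have h1 := Ideal.mul_mem_mul (Ideal.pow_mem_pow hu r) he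
        rw [← pow_add] at h1
        exact h1
      · have h1 := Ideal.mul_mem_mul hη hu
        rw [← pow_succ] at h1
        exact h1
      · have h1 := Ideal.mul_mem_mul hη he
        rw [← pow_add] at h1
        exact Ideal.pow_le_pow_right (by omega) h1
    · rw [pow_succ, h]
      ring

theorem abs_step (p : ℕ) [Fact p.Prime] [Algebra (ZMod p) R] (d : Γ → R)
    (hd : ∀ y z, d (y * z) = d y + d z + d y * d z) (hp : ∀ y, d y ^ (p - 1) = 0) (m : ℕ)
    (hm : p - 1 ≤ m) (hJ : Ideal.span (Set.range d) ^ (m + 1) = ⊥) :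
    Ideal.span (Set.range d) ^ m = ⊥ := by
  have hpp : p.Prime := Fact.out
  set J := Ideal.span (Set.range d) with hJdef
  have hdJ : ∀ y, d y ∈ J := fun y => Ideal.subset_span ⟨y, rfl⟩
  have hpowd : ∀ (y z : Γ) (l : ℕ), ∃ e ∈ J ^ 2, d (y * z ^ l) = (d y + (l : R) * d z) + e := by
    intro y z l
    induction l with
    | zero => exact ⟨0, Ideal.zero_mem _, by simp⟩
    | succ l ih =>
      obtain ⟨e, he, h⟩ := ih
      refine ⟨e + d (y * z ^ l) * d z, Ideal.add_mem _ he ?_, ?_⟩
      · have h1 := Ideal.mul_mem_mul (hdJ (y * z ^ l)) (hdJ z)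
        rw [← pow_two] at h1
        exact h1
      · rw [pow_succ, ← mul_assoc, hd, h]
        push_cast
        ring
  have hS : ∀ t : ℕ, t ≤ p - 1 → ∀ (y : Γ), ∀ w ∈ J ^ (m - (p - 1 - t)),
      d y ^ (p - 1 - t) * w = 0 := by
    intro t
    induction t with
    | zero =>
      intro _ y w _
      rw [Nat.sub_zero, hp, zero_mul]
    | succ t ih =>
      intro ht y w hw
      obtain ⟨r, hr⟩ : ∃ r, p - 1 - (t + 1) = r := ⟨_, rfl⟩
      have hr' : p - 1 - t = r + 1 := by omega
      rw [hr] at hw ⊢
      have ih' := ih (by omega)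
      rw [hr'] at ih'
      have hmr : m - r = (m - (r + 1)) + 1 := by omega
      rw [hmr, pow_succ] at hw
      -- base computation
      have base : ∀ w' ∈ J ^ (m - (r + 1)), ∀ z : Γ, d y ^ r * (w' * d z) = 0 := by
        intro w' hw' z
        have h1 : ∀ l : ℕ, (d y + (l : R) * d z) ^ (r + 1) * w' = 0 := by
          intro l
          obtain ⟨e, he, h2⟩ := hpowd y z l
          have h3 := ih' (y * z ^ l) w' hw'
          obtain ⟨η, hη, h4⟩ := pow_add_mod J (d y + (l : R) * d z) e
            (Ideal.add_mem _ (hdJ y) (Ideal.mul_mem_left _ _ (hdJ z))) he (r + 1)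
          rw [h2, h4, add_mul] at h3
          have h5 : η * w' = 0 := by
            have h6 := Ideal.mul_mem_mul hη hw'
            rw [← pow_add] at h6
            have h7 : r + 1 + 1 + (m - (r + 1)) = m + 1 := by omega
            rw [h7, hJ] at h6
            exact (Submodule.mem_bot R).1 h6
          rw [h5, add_zero] at h3
          exact h3
        have h2 := vand p (fun k => d z ^ k * d y ^ (r + 1 - k) * ((r + 1).choose k : R) * w')
          (r + 1) (by omega) (by
            intro l
            have h3 := h1 l.val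
            rw [add_comm, add_pow, Finset.sum_mul] at h3
            rw [← h3]
            refine Finset.sum_congr rfl fun k _ => ?_
            have h4 : (l ^ k) • (d z ^ k * d y ^ (r + 1 - k) * ((r + 1).choose k : R) * w') =
                ((l.val : R) ^ k) * (d z ^ k * d y ^ (r + 1 - k) * ((r + 1).choose k : R) * w') := by
              rw [Algebra.smul_def]
              congr 1
              rw [map_pow]
              congr 1
              conv_lhs => rw [← ZMod.natCast_zmod_val l]
              rw [map_natCast]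
            rw [h4]
            ring) 1 (by omega)
        simp only [pow_one, Nat.add_sub_cancel, Nat.choose_one_right] at h2
        have h3 : ((r + 1 : ℕ) : ZMod p) ≠ 0 := by
          intro h4
          rw [ZMod.natCast_eq_zero_iff] at h4
          have := Nat.le_of_dvd (by omega) h4
          omega
        have h4 : ((r + 1 : ℕ) : ZMod p) • (d y ^ r * (w' * d z)) = 0 := by
          rw [Algebra.smul_def, map_natCast, ← h2]
          ring
        exact (smul_eq_zero.1 h4).resolve_left h3
      refine Submodule.mul_induction_on hw ?_ ?_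
      · intro w' hw' u hu
        refine Submodule.span_induction ?_ ?_ ?_ ?_ hu
        · rintro _ ⟨z, rfl⟩
          exact base w' hw' z
        · rw [mul_zero, mul_zero]
        · intro a b _ _ ha hb
          rw [mul_add, mul_add, ha, hb, add_zero]
        · intro c a _ ha
          rw [smul_eq_mul]
          have e1 : d y ^ r * (w' * (c * a)) = c * (d y ^ r * (w' * a)) := by ring
          rw [e1, ha, mul_zero]
      · intro a b ha hb
        rw [mul_add, ha, hb, add_zero]
  rw [eq_bot_iff]
  intro w hw
  have h1 := hS (p - 1) le_rfl 1 w (by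
    rw [Nat.sub_self, Nat.sub_zero]
    exact hw)
  rw [Nat.sub_self, pow_zero, one_mul] at h1
  exact (Submodule.mem_bot R).2 h1

theorem abs_nil (p : ℕ) [Fact p.Prime] [Algebra (ZMod p) R] (d : Γ → R)
    (hd : ∀ y z, d (y * z) = d y + d z + d y * d z) (hp : ∀ y, d y ^ (p - 1) = 0) (N : ℕ)
    (hN : Ideal.span (Set.range d) ^ (p - 1 + N) = ⊥) :
    Ideal.span (Set.range d) ^ (p - 1) = ⊥ := by
  induction N with
  | zero => exact hN
  | succ N ih => exact ih (abs_step p d hd hp (p - 1 + N) (by omega) hN)

end Pool.Agent.Helper958.ExpP
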