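import Mathlib
import Pool.Agent.Helper958.ExpP.Nil
import Pool.Agent.Helper958.ExpP.Fit

/-!
# Metabelian groups of prime exponent (Meier-Wunderli)
-/

set_option autoImplicit false

namespace Pool.Agent.Helper958.ExpP

open scoped commutatorElement
open Subgroup

section Op

variable {Γ : Type} [Group Γ] {M : Type} [AddCommGroup M]

theorem list_nil (p : ℕ) [Fact p.Prime] [Module (ZMod p) M] (ρ : Γ →* Module.End (ZMod p) M)
    (hcomm : ∀ y z, ρ y * ρ z = ρ z * ρ y)
    (hsum : ∀ y, ∑ i ∈ Finset.range p, (ρ y) ^ i = 0) (N : ℕ)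
    (hN : ∀ l : List Γ, l.length = p - 1 + N → (l.map fun y => ρ y - 1).prod = 0) (l : List Γ)
    (hl : l.length = p - 1) : (l.map fun y => ρ y - 1).prod = 0 := by
  classical
  have hpp : p.Prime := Fact.out
  have hc : ∀ a ∈ Set.range (fun y => ρ y - 1), ∀ b ∈ Set.range (fun y => ρ y - 1),
      a * b = b * a := by
    rintro _ ⟨y, rfl⟩ _ ⟨z, rfl⟩
    simp only [sub_mul, mul_sub, hcomm y z, one_mul, mul_one]
    abel
  letI : CommRing (Algebra.adjoin (ZMod p) (Set.range fun y => ρ y - 1)) :=
    Algebra.adjoinCommRingOfComm (ZMod p) hc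
  let R := Algebra.adjoin (ZMod p) (Set.range fun y => ρ y - 1)
  let d : Γ → R := fun y => ⟨ρ y - 1, Algebra.subset_adjoin ⟨y, rfl⟩⟩
  have hdv : ∀ y, ((d y : R) : Module.End (ZMod p) M) = ρ y - 1 := fun y => rfl
  have hd : ∀ y z, d (y * z) = d y + d z + d y * d z := by
    intro y z
    apply Subtype.ext
    show ρ (y * z) - 1 = (ρ y - 1) + (ρ z - 1) + (ρ y - 1) * (ρ z - 1)
    rw [map_mul]
    simp only [sub_mul, mul_sub, one_mul, mul_one]
    abel
  have hp1 : ∀ y, d y ^ (p - 1) = 0 := by
    intro y
    apply Subtype.ext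
    show (ρ y - 1) ^ (p - 1) = 0
    have h1 := Polynomial.cyclotomic_mul_prime_eq_pow_of_not_dvd (ZMod p) (p := p) (n := 1)
      (by rw [Nat.dvd_one]; exact hpp.one_lt.ne')
    rw [one_mul, Polynomial.cyclotomic_prime, Polynomial.cyclotomic_one] at h1
    have h2 := congrArg (Polynomial.aeval (ρ y)) h1
    simp only [map_sum, map_pow, map_sub, map_one, Polynomial.aeval_X] at h2
    rw [← h2]
    exact hsum y
  have hspan : ∀ n : ℕ, Ideal.span (Set.range d) ^ n ≤
      Ideal.span {x | ∃ l : List Γ, l.length = n ∧ (l.map d).prod = x} := by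
    intro n
    induction n with
    | zero =>
      rw [pow_zero, Ideal.one_eq_top]
      refine le_of_eq ?_
      symm
      rw [Ideal.eq_top_iff_one]
      exact Ideal.subset_span ⟨[], rfl, rfl⟩
    | succ n ih =>
      rw [pow_succ]
      refine (Ideal.mul_mono ih le_rfl).trans ?_
      rw [Ideal.span_mul_span']
      refine Ideal.span_mono ?_
      rintro _ ⟨_, ⟨l, hl, rfl⟩, _, ⟨y, rfl⟩, rfl⟩
      refine ⟨l ++ [y], by simp [hl], ?_⟩
      simp
  have hval : ∀ l : List Γ, (((l.map d).prod : R) : Module.End (ZMod p) M) =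
      (l.map fun y => ρ y - 1).prod := by
    intro l
    induction l with
    | nil => rfl
    | cons y l ih =>
      rw [List.map_cons, List.prod_cons, List.map_cons, List.prod_cons, ← ih]
      rfl
  have hJN : Ideal.span (Set.range d) ^ (p - 1 + N) = ⊥ := by
    rw [eq_bot_iff]
    refine (hspan _).trans ?_
    rw [Ideal.span_le]
    rintro _ ⟨l, hl, rfl⟩
    have h1 : (l.map d).prod = 0 := by
      apply Subtype.ext
      rw [hval, hN l hl]
      rfl
    rw [h1]
    exact Submodule.zero_mem _
  have hJ := abs_nil p d hd hp1 N hJN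
  have hmem : ∀ l : List Γ, (l.map d).prod ∈ Ideal.span (Set.range d) ^ l.length := by
    intro l
    induction l with
    | nil => simp
    | cons y l ih =>
      rw [List.map_cons, List.prod_cons, List.length_cons, pow_succ']
      exact Ideal.mul_mem_mul (Ideal.subset_span ⟨y, rfl⟩) ih
  have h1 := hmem l
  rw [hl, hJ] at h1
  have h2 : (l.map d).prod = 0 := (Submodule.mem_bot R).1 h1
  rw [← hval, h2]
  rfl

end Op

section Grp

variable {Γ : Type} [Group Γ]

theorem mw_aux (p : ℕ) [Fact p.Prime] {A : Type} [CommGroup A] [Module (ZMod p) (Additive A)]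
    (ι : A →* Γ) (hι : Function.Injective ι) (hr : ι.range = commutator Γ) (c : Γ →* MulAut A)
    (hc : ∀ y a, ι (c y a) = y * ι a * y⁻¹) (hexp : ∀ g : Γ, g ^ p = 1)
    (N : ℕ) (hN : LL Γ N = ⊥) : LL Γ p = ⊥ := by
  classical
  have hpp : p.Prime := Fact.out
  have hιm : ∀ a : A, ι a ∈ commutator Γ := fun a => by rw [← hr]; exact ⟨a, rfl⟩
  let ρ : Γ →* Module.End (ZMod p) (Additive A) :=
    { toFun := fun y => AddMonoidHom.toZModLinearMap p (MonoidHom.toAdditive (c y).toMonoidHom)
      map_one' := by
        apply LinearMap.ext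
        intro x
        show Additive.ofMul (c 1 (Additive.toMul x)) = x
        rw [map_one]
        rfl
      map_mul' := by
        intro y z
        apply LinearMap.ext
        intro x
        show Additive.ofMul (c (y * z) (Additive.toMul x)) =
          Additive.ofMul (c y (c z (Additive.toMul x)))
        rw [map_mul]
        rfl }
  have hρ : ∀ (y : Γ) (x : Additive A),
      ι (Additive.toMul (ρ y x)) = y * ι (Additive.toMul x) * y⁻¹ := by
    intro y x
    exact hc y (Additive.toMul x)
  have hinj : ∀ x x' : Additive A, ι (Additive.toMul x) = ι (Additive.toMul x') → x = x' :=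
    fun x x' h => Additive.toMul.injective (hι h)
  have hadd : ∀ x x' : Additive A, ι (Additive.toMul (x + x')) =
      ι (Additive.toMul x) * ι (Additive.toMul x') := by
    intro x x'
    rw [toMul_add, map_mul]
  have hneg : ∀ x : Additive A, ι (Additive.toMul (-x)) = (ι (Additive.toMul x))⁻¹ := by
    intro x
    rw [toMul_neg, map_inv]
  have hzero : ι (Additive.toMul (0 : Additive A)) = 1 := by
    rw [toMul_zero, map_one]
  have hcomm : ∀ y z, ρ y * ρ z = ρ z * ρ y := by
    intro y z
    apply LinearMap.ext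
    intro x
    apply hinj
    show ι (Additive.toMul (ρ y (ρ z x))) = ι (Additive.toMul (ρ z (ρ y x)))
    rw [hρ, hρ, hρ, hρ]
    have h1 : ⁅y⁻¹, z⁻¹⁆ ∈ commutator Γ :=
      commutator_mem_commutator (mem_top _) (mem_top _)
    rw [← hr] at h1
    obtain ⟨b, hb⟩ := h1
    have h2 : ⁅y⁻¹, z⁻¹⁆ * ι (Additive.toMul x) = ι (Additive.toMul x) * ⁅y⁻¹, z⁻¹⁆ := by
      rw [← hb, ← map_mul, ← map_mul, mul_comm]
    set a : Γ := ι (Additive.toMul x) with ha
    rw [commutatorElement_def, inv_inv, inv_inv] at h2
    have h3 : y * (z * a * z⁻¹) * y⁻¹ = z * y * (y⁻¹ * z⁻¹ * y * z * a) * z⁻¹ * y⁻¹ := by group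
    rw [h3, h2]
    group
  have hsum : ∀ y, ∑ i ∈ Finset.range p, (ρ y) ^ i = 0 := by
    intro y
    apply LinearMap.ext
    intro x
    apply hinj
    have key : ∀ n : ℕ, (ι (Additive.toMul x) * y) ^ n =
        ι (Additive.toMul ((∑ i ∈ Finset.range n, (ρ y) ^ i) x)) * y ^ n := by
      intro n
      induction n with
      | zero =>
        rw [Finset.range_zero, Finset.sum_empty, LinearMap.zero_apply, hzero, pow_zero,
          pow_zero, one_mul]
      | succ n ih =>
        have e1 : ι (Additive.toMul (((ρ y) ^ n) x)) =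
            y ^ n * ι (Additive.toMul x) * (y ^ n)⁻¹ := by
          rw [← map_pow, hρ]
        rw [Finset.sum_range_succ, LinearMap.add_apply, hadd, e1, pow_succ, ih]
        group
    have h1 := key p
    rw [hexp, hexp, mul_one] at h1
    rw [LinearMap.zero_apply, hzero]
    exact h1.symm
  -- the commutator in terms of D
  have hD : ∀ (y : Γ) (x : Additive A),
      ι (Additive.toMul ((ρ y - 1) x)) = ⁅ι (Additive.toMul x), y⁆⁻¹ := by
    intro y x
    have e0 : (ρ y - 1) x = ρ y x + -x := by
      rw [LinearMap.sub_apply, sub_eq_add_neg]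
      rfl
    rw [e0, hadd, hneg, hρ, commutatorElement_def]
    group
  have hL : ∀ (n : ℕ) (l : List Γ), l.length = n → ∀ x : Additive A,
      ι (Additive.toMul (((l.map fun y => ρ y - 1).prod) x)) ∈ LL Γ (n + 1) := by
    intro n
    induction n with
    | zero =>
      intro l hl x
      rw [List.length_eq_zero_iff.1 hl]
      have h1 := hιm (Additive.toMul x)
      rw [← Subgroup.top_lowerCentralSeries_one] at h1
      exact h1
    | succ n ih =>
      intro l hl x
      obtain ⟨y, l, rfl⟩ : ∃ y l', l = y :: l' := by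
        cases l with
        | nil => simp at hl
        | cons y l => exact ⟨y, l, rfl⟩
      rw [List.map_cons, List.prod_cons]
      have h1 := ih l (by simpa using hl) x
      show ι (Additive.toMul ((ρ y - 1) (((l.map fun y => ρ y - 1).prod) x))) ∈
        LL Γ (n + 1 + 1)
      rw [hD]
      exact inv_mem (commutator_mem_commutator h1 (mem_top y))
  have hnil := list_nil p ρ hcomm hsum N (by
    intro l hl
    apply LinearMap.ext
    intro x
    apply hinj
    have h1 := hL _ l hl x
    have h2 : LL Γ (p - 1 + N + 1) ≤ LL Γ N := Subgroup.lowerCentralSeries_antitone _ (by omega)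
    have h3 := h2 h1
    rw [hN] at h3
    rw [LinearMap.zero_apply, hzero]
    exact Subgroup.mem_bot.1 h3)
  -- the terms of the lower central series in terms of the products
  have hU : ∀ n : ℕ, ∀ g ∈ LL Γ (n + 1), ∃ x ∈ Submodule.span (ZMod p)
      {z : Additive A | ∃ (l : List Γ) (w : Additive A),
        l.length = n ∧ ((l.map fun y => ρ y - 1).prod) w = z},
      ι (Additive.toMul x) = g := by
    intro n
    induction n with
    | zero =>
      intro g hg
      have hg' : g ∈ commutator Γ := by
        rw [← Subgroup.top_lowerCentralSeries_one]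
        exact hg
      rw [← hr] at hg'
      obtain ⟨b, hb⟩ := hg'
      exact ⟨Additive.ofMul b, Submodule.subset_span ⟨[], _, rfl, rfl⟩, hb⟩
    | succ n ih =>
      intro g hg
      have hg2 : g ∈ ⁅LL Γ (n + 1), (⊤ : Subgroup Γ)⁆ := hg
      rw [Subgroup.commutator_def] at hg2
      refine Subgroup.closure_induction ?_ ?_ ?_ ?_ hg2
      · rintro _ ⟨a, ha, y, _, rfl⟩
        obtain ⟨x, hx, rfl⟩ := ih a ha
        refine ⟨-((ρ y - 1) x), ?_, ?_⟩
        · refine Submodule.neg_mem _ ?_
          refine Submodule.span_induction ?_ ?_ ?_ ?_ hx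
          · rintro _ ⟨l, w, hl, rfl⟩
            refine Submodule.subset_span ⟨y :: l, w, by simp [hl], ?_⟩
            rw [List.map_cons, List.prod_cons]
            rfl
          · rw [map_zero]
            exact Submodule.zero_mem _
          · intro u v _ _ hu hv
            rw [map_add]
            exact Submodule.add_mem _ hu hv
          · intro r u _ hu
            rw [map_smul]
            exact Submodule.smul_mem _ _ hu
        · rw [hneg, hD, inv_inv]
      · exact ⟨0, Submodule.zero_mem _, hzero⟩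
      · rintro a b _ _ ⟨x, hx, rfl⟩ ⟨y, hy, rfl⟩
        exact ⟨x + y, Submodule.add_mem _ hx hy, hadd x y⟩
      · rintro a _ ⟨x, hx, rfl⟩
        exact ⟨-x, Submodule.neg_mem _ hx, hneg x⟩
  obtain ⟨q, hq⟩ : ∃ q, p = q + 1 := ⟨p - 1, by have := hpp.pos; omega⟩
  rw [eq_bot_iff]
  intro g hg
  have hg' : g ∈ LL Γ (q + 1) := by rw [← hq]; exact hg
  obtain ⟨x, hx, rfl⟩ := hU q g hg'
  have hx0 : x = 0 := by
    rw [← Submodule.mem_bot (ZMod p)]
    refine (Submodule.span_le.2 ?_ : _ ≤ (⊥ : Submodule (ZMod p) (Additive A))) hx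
    rintro _ ⟨l, w, hl, rfl⟩
    rw [hnil l (by omega)]
    exact Submodule.zero_mem _
  rw [hx0, hzero]
  exact Subgroup.mem_bot.2 rfl

/-- Meier-Wunderli: a nilpotent metabelian group of exponent `p` has class at most `p`
(precisely: `γ_{p+1} = 1`). -/
theorem meier_wunderli (p : ℕ) [Fact p.Prime] (hexp : ∀ g : Γ, g ^ p = 1)
    (hab : ∀ x ∈ commutator Γ, ∀ y ∈ commutator Γ, x * y = y * x)
    (N : ℕ) (hN : LL Γ N = ⊥) : LL Γ p = ⊥ := by
  letI hcg : CommGroup (commutator Γ) :=
    { (inferInstance : Group (commutator Γ)) with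
      mul_comm := fun a b => Subtype.ext (hab a.1 a.2 b.1 b.2) }
  letI : Module (ZMod p) (Additive (commutator Γ)) := AddCommGroup.zmodModule (by
    intro x
    have h1 : (Additive.toMul x) ^ p = 1 := Subtype.ext (hexp _)
    exact congrArg Additive.ofMul h1)
  refine mw_aux p (commutator Γ).subtype (Subgroup.subtype_injective _)
    (Subgroup.range_subtype _) MulAut.conjNormal ?_ hexp N hN
  intro y a
  exact MulAut.conjNormal_apply y a

end Grp

end Pool.Agent.Helper958.ExpP
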