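import Mathlib
import Pool.Agent.Helper958.ExpP.Metab

/-!
# P. Hall's nilpotency criterion and soluble groups of prime exponent
-/

set_option autoImplicit false

namespace Pool.Agent.Helper958.ExpP

open scoped commutatorElement
open Subgroup

variable {Γ : Type} [Group Γ]

theorem comm_lcs (S : Subgroup Γ) [S.Normal] (j : ℕ) :
    ∀ i : ℕ, ⁅S.lowerCentralSeries i, S.lowerCentralSeries j⁆ ≤
      S.lowerCentralSeries (i + j + 1) := by
  induction j with
  | zero => exact fun i => le_rfl
  | succ j ih =>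
    intro i
    have e : ⁅S.lowerCentralSeries i, S.lowerCentralSeries (j + 1)⁆ =
        ⁅⁅S.lowerCentralSeries j, S⁆, S.lowerCentralSeries i⁆ :=
      commutator_comm _ _
    rw [e]
    refine three _ _ _ _ ?_ ?_
    · have h1 := ih (i + 1)
      have e1 : i + 1 + j + 1 = i + (j + 1) + 1 := by ring
      rw [e1] at h1
      refine le_trans (commutator_mono ?_ le_rfl) h1
      rw [commutator_comm]
      exact le_rfl
    · exact commutator_mono (ih i) le_rfl

theorem comm_top_le (X M : Subgroup Γ) [M.Normal] :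
    ⁅X, (⊤ : Subgroup Γ)⁆ ≤ M ↔ X ≤ (center (Γ ⧸ M)).comap (QuotientGroup.mk' M) := by
  rw [commutator_le]
  constructor
  · intro h x hx
    rw [mem_comap, mem_center_iff]
    intro z
    obtain ⟨y, rfl⟩ := QuotientGroup.mk'_surjective M z
    have h1 := h x hx y (mem_top y)
    rw [← QuotientGroup.eq_one_iff] at h1
    have e1 : ((⁅x, y⁆ : Γ) : Γ ⧸ M) = ⁅QuotientGroup.mk' M x, QuotientGroup.mk' M y⁆ := rfl
    rw [e1, commutatorElement_eq_one_iff_mul_comm] at h1
    exact h1.symm
  · intro h x hx y _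
    have h2 := h hx
    rw [mem_comap, mem_center_iff] at h2
    rw [← QuotientGroup.eq_one_iff]
    have e1 : ((⁅x, y⁆ : Γ) : Γ ⧸ M) = ⁅QuotientGroup.mk' M x, QuotientGroup.mk' M y⁆ := rfl
    rw [e1, commutatorElement_eq_one_iff_mul_comm]
    exact (h2 _).symm

/-- the auxiliary filtration -/
def TT (N : Subgroup Γ) : ℕ → ℕ → Subgroup Γ
  | 0, w => LL Γ (w + 1)
  | i + 1, w => (⨆ ab : {ab : ℕ × ℕ // ab.1 + ab.2 = w}, ⁅TT N i ab.1.1, LL Γ (ab.1.2 + 1)⁆) ⊔
      N.lowerCentralSeries (i + 2)

instance TT_normal (N : Subgroup Γ) [N.Normal] (i w : ℕ) : (TT N i w).Normal := by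
  induction i generalizing w with
  | zero => exact (inferInstance : (LL Γ (w + 1)).Normal)
  | succ i ih =>
    rw [TT]
    haveI h1 : (⨆ ab : {ab : ℕ × ℕ // ab.1 + ab.2 = w},
        ⁅TT N i ab.1.1, LL Γ (ab.1.2 + 1)⁆).Normal := by
      haveI : ∀ ab : {ab : ℕ × ℕ // ab.1 + ab.2 = w},
        (⁅TT N i ab.1.1, LL Γ (ab.1.2 + 1)⁆).Normal := by
        intro ab
        haveI := ih ab.1.1
        infer_instance
      exact Subgroup.iSup_normal _
    infer_instance

theorem TT_piece (N : Subgroup Γ) (i a b w : ℕ) (h : a + b = w) :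
    ⁅TT N i a, LL Γ (b + 1)⁆ ≤ TT N (i + 1) w := by
  rw [TT]
  refine le_trans ?_ le_sup_left
  exact le_iSup (fun ab : {ab : ℕ × ℕ // ab.1 + ab.2 = w} =>
    ⁅TT N i ab.1.1, LL Γ (ab.1.2 + 1)⁆) ⟨(a, b), h⟩

theorem TT_comm (N : Subgroup Γ) [N.Normal] (i w : ℕ) :
    ⁅TT N i w, (⊤ : Subgroup Γ)⁆ ≤ TT N i (w + 1) := by
  induction i generalizing w with
  | zero => exact le_rfl
  | succ i ih =>
    rw [comm_top_le]
    conv_lhs => rw [TT]
    refine sup_le (iSup_le ?_) ?_
    · rintro ⟨⟨a, b⟩, hab⟩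
      rw [← comm_top_le]
      simp only at hab ⊢
      refine three _ _ _ _ ?_ ?_
      · refine le_trans ?_ (TT_piece N i a (b + 1) (w + 1) (by omega))
        rw [commutator_comm]
        exact le_rfl
      · refine le_trans ?_ (TT_piece N i (a + 1) b (w + 1) (by omega))
        refine commutator_mono ?_ le_rfl
        rw [commutator_comm]
        exact ih a
    · rw [← comm_top_le]
      refine (commutator_le_left _ _).trans ?_
      rw [TT]
      exact le_sup_right

theorem TT_ge (N : Subgroup Γ) (hN : N = LL Γ 1) (i : ℕ) :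
    N.lowerCentralSeries i ≤ TT N i 0 := by
  induction i with
  | zero =>
    show N ≤ LL Γ 1
    exact hN.le
  | succ i ih =>
    refine le_trans ?_ (TT_piece N i 0 0 0 rfl)
    exact commutator_mono ih hN.le

theorem TT_le (N : Subgroup Γ) (hN : N = LL Γ 1) (i w : ℕ) :
    TT N i w ≤ N.lowerCentralSeries i := by
  induction i generalizing w with
  | zero =>
    show LL Γ (w + 1) ≤ N
    rw [hN]
    exact Subgroup.lowerCentralSeries_antitone _ (by omega)
  | succ i ih =>
    rw [TT]
    refine sup_le (iSup_le ?_) ?_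
    · rintro ⟨⟨a, b⟩, hab⟩
      refine commutator_mono (ih a) ?_
      rw [hN]
      exact Subgroup.lowerCentralSeries_antitone _ (by omega)
    · exact Subgroup.lowerCentralSeries_antitone _ (by omega)

theorem TT_deep (N : Subgroup Γ) [N.Normal] (hN : N = LL Γ 1) (q : ℕ)
    (hq : LL Γ (q + 2) ≤ N.lowerCentralSeries 1) (i w : ℕ) (hw : (i + 1) * q + 1 ≤ w) :
    TT N i w ≤ N.lowerCentralSeries (i + 1) := by
  induction i generalizing w with
  | zero =>
    refine le_trans ?_ hq
    exact Subgroup.lowerCentralSeries_antitone _ (by omega)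
  | succ i ih =>
    rw [TT]
    refine sup_le (iSup_le ?_) le_rfl
    rintro ⟨⟨a, b⟩, hab⟩
    simp only at hab ⊢
    by_cases hb : q + 1 ≤ b
    · have h1 : LL Γ (b + 1) ≤ N.lowerCentralSeries 1 :=
        le_trans (Subgroup.lowerCentralSeries_antitone _ (by omega)) hq
      exact (commutator_mono (TT_le N hN i a) h1).trans (comm_lcs N 1 i)
    · have h1 : TT N i a ≤ N.lowerCentralSeries (i + 1) := ih a (by
        have e : (i + 1 + 1) * q = (i + 1) * q + q := by ring
        rw [e] at hw
        omega)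
      refine commutator_mono h1 ?_
      rw [hN]
      exact Subgroup.lowerCentralSeries_antitone _ (by omega)

/-- P. Hall's criterion for `N = G'`. -/
theorem hall (N : Subgroup Γ) [N.Normal] (hN : N = LL Γ 1) (q : ℕ)
    (hq : LL Γ (q + 2) ≤ N.lowerCentralSeries 1) (i : ℕ) :
    LL Γ (1 + ∑ k ∈ Finset.range i, ((k + 1) * q + 1)) ≤ N.lowerCentralSeries i := by
  induction i with
  | zero =>
    show LL Γ (1 + 0) ≤ N
    rw [hN]
  | succ i ih =>
    have h1 : ∀ w, LL Γ ((1 + ∑ k ∈ Finset.range i, ((k + 1) * q + 1)) + w) ≤ TT N i w := by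
      intro w
      induction w with
      | zero => exact ih.trans (TT_ge N hN i)
      | succ w ihw => exact (commutator_mono ihw le_rfl).trans (TT_comm N i w)
    rw [Finset.sum_range_succ, ← add_assoc]
    exact (h1 _).trans (TT_deep N hN q hq i _ le_rfl)

/-- the class bound -/
def cls (p : ℕ) : ℕ → ℕ
  | 0 => 0
  | s + 1 => 1 + ∑ k ∈ Finset.range (cls p s), ((k + 1) * (p - 2) + 1)

/-- derived series of a subgroup -/
def DD (S : Subgroup Γ) : ℕ → Subgroup Γ
  | 0 => S
  | n + 1 => ⁅DD S n, DD S n⁆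

theorem DD_top (n : ℕ) : DD (⊤ : Subgroup Γ) n = derivedSeries Γ n := by
  induction n with
  | zero => rfl
  | succ n ih =>
    rw [DD, ih]
    rfl

theorem DD_shift (S : Subgroup Γ) (n : ℕ) : DD S (n + 1) = DD ⁅S, S⁆ n := by
  induction n with
  | zero => rfl
  | succ n ih =>
    rw [DD, ih]
    rfl

theorem DD_map {Δ : Type} [Group Δ] (f : Γ →* Δ) (S : Subgroup Γ) (n : ℕ) :
    (DD S n).map f = DD (S.map f) n := by
  induction n with
  | zero => rfl
  | succ n ih =>
    rw [DD, DD, map_commutator, ih]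

theorem sol_class (p : ℕ) [Fact p.Prime] (s : ℕ) : ∀ (Γ : Type) [Group Γ],
    (∀ g : Γ, g ^ p = 1) → (DD (⊤ : Subgroup Γ) s = ⊥) → Group.IsNilpotent Γ →
    LL Γ (cls p s) = ⊥ := by
  have hpp : p.Prime := Fact.out
  induction s with
  | zero =>
    intro Γ _ _ hs _
    exact hs
  | succ s ih =>
    intro Γ _ hexp hs hnil
    obtain ⟨N0, hN0⟩ := (Subgroup.nilpotent_iff_lowerCentralSeries (G := Γ)).1 hnil
    set N : Subgroup Γ := LL Γ 1 with hNdef
    have hNc : N = ⁅(⊤ : Subgroup Γ), (⊤ : Subgroup Γ)⁆ := rfl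
    have hnilN : Group.IsNilpotent N := Subgroup.isNilpotent N
    -- class of N
    have h1 : LL N (cls p s) = ⊥ := by
      refine ih N (fun g => Subtype.ext (hexp g.1)) ?_ hnilN
      have h2 : (DD (⊤ : Subgroup N) s).map N.subtype = ⊥ := by
        rw [DD_map, ← MonoidHom.range_eq_map, Subgroup.range_subtype, hNc, ← DD_shift, hs]
      exact (Subgroup.map_eq_bot_iff_of_injective _ N.subtype_injective).1 h2
    have h2 : N.lowerCentralSeries (cls p s) = ⊥ := by
      rw [← Subgroup.top_subtype_lowerCentralSeries]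
      have h3 : (⊤ : Subgroup N).lowerCentralSeries (cls p s) = ⊥ := h1
      rw [h3, Subgroup.map_bot]
    -- class of the metabelian quotient
    have h3 : LL Γ p ≤ N.lowerCentralSeries 1 := by
      set Q := Γ ⧸ (N.lowerCentralSeries 1) with hQ
      have hnQ : Group.IsNilpotent Q := Group.nilpotent_quotient_of_nilpotent _
      obtain ⟨M0, hM0⟩ := (Subgroup.nilpotent_iff_lowerCentralSeries (G := Q)).1 hnQ
      have hmap : N.map (QuotientGroup.mk' (N.lowerCentralSeries 1)) = _root_.commutator Q := by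
        rw [← Subgroup.top_lowerCentralSeries_one]
        have e := Subgroup.map_lowerCentralSeries (⊤ : Subgroup Γ)
          (QuotientGroup.mk' (N.lowerCentralSeries 1)) 1
        rw [Subgroup.map_top_of_surjective _ (QuotientGroup.mk'_surjective _)] at e
        exact e
      have h4 : LL Q p = ⊥ := by
        refine meier_wunderli p ?_ ?_ M0 hM0
        · intro g
          obtain ⟨x, rfl⟩ := QuotientGroup.mk'_surjective _ g
          rw [← map_pow, hexp, map_one]
        · intro x hx y hy
          rw [← hmap] at hx hy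
          obtain ⟨x, hx, rfl⟩ := hx
          obtain ⟨y, hy, rfl⟩ := hy
          rw [← commutatorElement_eq_one_iff_mul_comm, ← map_commutatorElement]
          refine (QuotientGroup.eq_one_iff _).2 ?_
          exact commutator_mem_commutator hx hy
      have h5 : (LL Γ p).map (QuotientGroup.mk' (N.lowerCentralSeries 1)) = ⊥ := by
        have e := Subgroup.map_lowerCentralSeries (⊤ : Subgroup Γ)
          (QuotientGroup.mk' (N.lowerCentralSeries 1)) p
        rw [Subgroup.map_top_of_surjective _ (QuotientGroup.mk'_surjective _)] at e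
        exact e.trans h4
      rw [Subgroup.map_eq_bot_iff, QuotientGroup.ker_mk'] at h5
      exact h5
    obtain ⟨q, hq⟩ : ∃ q, p = q + 2 := ⟨p - 2, by have := hpp.two_le; omega⟩
    have h6 := hall N rfl q (by rw [← hq]; exact h3) (cls p s)
    rw [h2, ← eq_bot_iff] at h6
    have e : cls p (s + 1) = 1 + ∑ k ∈ Finset.range (cls p s), ((k + 1) * q + 1) := by
      rw [cls]
      have : p - 2 = q := by omega
      rw [this]
    rw [e]
    exact h6

end Pool.Agent.Helper958.ExpP
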