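import Mathlib
import Pool.Agent.Helper958.ExpP.Fit

/-!
# Characteristic subgroups of exponent `p` of bounded index
-/

set_option autoImplicit false

namespace Pool.Agent.Helper958.ExpP

open scoped commutatorElement
open Subgroup

variable {G : Type} [Group G]

theorem pr_mem (N : Subgroup G) (a : ℕ → G) (i : ℕ) (k : ℕ) (β : ℕ → Bool)
    (hβ : β i = false) (ha : ∀ j < k, j ≠ i → a j ∈ N) : pr a k β ∈ N := by
  induction k with
  | zero => exact N.one_mem
  | succ k ih =>
    have h1 := ih fun j hj => ha j (Nat.lt_succ_of_lt hj)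
    show (if β k then pr a k β * a k else pr a k β) ∈ N
    split_ifs with h
    · refine N.mul_mem h1 (ha k (Nat.lt_succ_self k) ?_)
      rintro rfl
      rw [hβ] at h
      exact absurd h (by simp)
    · exact h1

theorem pr_congr (a a' : ℕ → G) (k : ℕ) (β : ℕ → Bool) (h : ∀ i < k, a i = a' i) :
    pr a k β = pr a' k β := by
  induction k with
  | zero => rfl
  | succ k ih =>
    have h1 := ih fun i hi => h i (Nat.lt_succ_of_lt hi)
    show (if β k then pr a k β * a k else pr a k β) =
      (if β k then pr a' k β * a' k else pr a' k β)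
    rw [h1, h k (Nat.lt_succ_self k)]

theorem pr_mod (N : Subgroup G) [hN : N.Normal] (b : ℕ → G) (j m : ℕ)
    (hb : ∀ i < m, i ≠ j → b i ∈ N) :
    (m ≤ j → pr b m (fun _ => true) ∈ N) ∧
      (j < m → (b j)⁻¹ * pr b m (fun _ => true) ∈ N) := by
  induction m with
  | zero => exact ⟨fun _ => N.one_mem, fun h => absurd h (Nat.not_lt_zero _)⟩
  | succ m ih =>
    obtain ⟨h1, h2⟩ := ih fun i hi => hb i (Nat.lt_succ_of_lt hi)
    have e : pr b (m + 1) (fun _ => true) = pr b m (fun _ => true) * b m := rfl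
    rw [e]
    refine ⟨fun h => N.mul_mem (h1 (by omega)) (hb m (Nat.lt_succ_self m) (by omega)),
      fun h => ?_⟩
    rcases Nat.lt_or_eq_of_le (Nat.lt_succ_iff.1 h) with h3 | h3
    · rw [← mul_assoc]
      exact N.mul_mem (h2 h3) (hb m (Nat.lt_succ_self m) (by omega))
    · subst h3
      have h4 := hN.conj_mem _ (h1 le_rfl) (b j)⁻¹
      rw [inv_inv, mul_assoc] at h4
      exact h4

variable [Finite G]

theorem index_inf (p : ℕ) (S : Finset (Subgroup G)) (hS : ∀ H ∈ S, H.index = p) :
    (S.inf id).index ≤ p ^ S.card := by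
  classical
  induction S using Finset.induction_on with
  | empty =>
    rw [Finset.inf_empty, Subgroup.index_top, Finset.card_empty, pow_zero]
  | insert a S ha ih =>
    rw [Finset.inf_insert, Finset.card_insert_of_notMem ha, pow_succ, mul_comm]
    refine Subgroup.index_inf_le.trans ?_
    have e : (id a : Subgroup G).index = p := hS a (Finset.mem_insert_self _ _)
    rw [e]
    exact Nat.mul_le_mul_left _ (ih fun H hH => hS H (Finset.mem_insert_of_mem hH))

/-- The main theorem: `Q` is an invariant property of subgroups which bounds the class of the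
subgroups of exponent `p` by `c`. -/
theorem main (p c : ℕ) [Fact p.Prime] (hc : 1 ≤ c) (hG : IsPGroup p G) (Q : Subgroup G → Prop)
    (hQ : ∀ (φ : G ≃* G) (H : Subgroup G), Q H → Q (H.comap φ.toMonoidHom))
    (hQc : ∀ H : Subgroup G, (∀ h ∈ H, h ^ p = 1) → Q H → H.lowerCentralSeries c = ⊥)
    (hex : ∃ H : Subgroup G, H.index = p ∧ (∀ h ∈ H, h ^ p = 1) ∧ Q H) :
    ∃ K : Subgroup G, K.Characteristic ∧ (∀ k ∈ K, k ^ p = 1) ∧ K.index ≤ p ^ (2 * c) := by
  classical
  have hp : p.Prime := Fact.out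
  set HH : Set (Subgroup G) := {H | H.index = p ∧ (∀ h ∈ H, h ^ p = 1) ∧ Q H} with hHH
  have hfin : HH.Finite := Set.toFinite _
  -- normality
  have hnorm : ∀ H ∈ HH, H.Normal := by
    intro H hH
    obtain ⟨n, hn⟩ := IsPGroup.iff_card.1 hG
    have hn0 : n ≠ 0 := by
      rintro rfl
      rw [pow_zero] at hn
      have h1 := H.card_mul_index
      rw [hn, hH.1] at h1
      exact hp.one_lt.ne' (Nat.eq_one_of_mul_eq_one_left h1)
    refine Subgroup.normal_of_index_eq_minFac_card ?_
    rw [hn, hH.1, Nat.Prime.pow_minFac hp hn0]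
  -- minimal subfamily
  have hP : ∃ n : ℕ, ∃ S : Finset (Subgroup G), S.card = n ∧ (∀ H ∈ S, H ∈ HH) ∧
      S.inf id = sInf HH := by
    refine ⟨_, hfin.toFinset, rfl, fun H hH => (Set.Finite.mem_toFinset hfin).1 hH, ?_⟩
    rw [Finset.inf_id_eq_sInf]
    congr 1
    exact Set.Finite.coe_toFinset hfin
  obtain ⟨S, hScard, hSH, hSinf⟩ := Nat.find_spec hP
  have hSmin : ∀ T : Finset (Subgroup G), T.card < S.card → (∀ H ∈ T, H ∈ HH) →
      T.inf id ≠ sInf HH := by
    intro T hT hTH hTinf
    rw [hScard] at hT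
    exact Nat.find_min hP hT ⟨T, rfl, hTH, hTinf⟩
  by_cases hk : S.card ≤ 2 * c
  · refine ⟨sInf HH, ?_, ?_, ?_⟩
    · rw [Subgroup.characteristic_iff_le_comap]
      intro φ x hx
      rw [mem_comap, mem_sInf]
      intro H hH
      have h1 : H.comap φ.toMonoidHom ∈ HH := by
        refine ⟨?_, ?_, hQ φ H hH.2.2⟩
        · rw [Subgroup.index_comap_of_surjective _ φ.surjective]
          exact hH.1
        · intro h hh
          have h2 := hH.2.1 _ (mem_comap.1 hh)
          rw [← map_pow] at h2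
          exact φ.injective (h2.trans (map_one φ).symm)
      exact mem_comap.1 ((mem_sInf.1 hx) _ h1)
    · obtain ⟨H, hH⟩ := hex
      intro k hk
      exact hH.2.1 k ((mem_sInf.1 hk) H hH)
    · rw [← hSinf]
      exact (index_inf p S fun H hH => (hSH H hH).1).trans (Nat.pow_le_pow_right hp.pos hk)
  · push Not at hk
    -- enumerate
    obtain ⟨K1, hK1⟩ : ∃ K1, S.card = K1 + 1 := ⟨S.card - 1, by omega⟩
    let e : S ≃ Fin S.card := S.equivFin
    let Hs : ℕ → Subgroup G := fun i => if h : i < S.card then (e.symm ⟨i, h⟩).1 else ⊤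
    have hHs : ∀ i, (h : i < S.card) → Hs i = (e.symm ⟨i, h⟩).1 := by
      intro i h
      simp only [Hs, dif_pos h]
    have hHsS : ∀ i, i < S.card → Hs i ∈ S := by
      intro i h
      rw [hHs i h]
      exact (e.symm ⟨i, h⟩).2
    have hHsinj : ∀ i j, i < S.card → j < S.card → Hs i = Hs j → i = j := by
      intro i j hi hj hij
      rw [hHs i hi, hHs j hj] at hij
      have h1 := e.symm.injective (Subtype.ext hij)
      exact congrArg Fin.val h1
    have hsurj : ∀ H ∈ S, ∃ i < S.card, Hs i = H := by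
      intro H hH
      refine ⟨(e ⟨H, hH⟩).1, (e ⟨H, hH⟩).2, ?_⟩
      rw [hHs _ (e ⟨H, hH⟩).2]
      simp
    -- dual elements
    have hdual : ∀ i < S.card, ∃ a : G, a ∉ Hs i ∧ ∀ j < S.card, j ≠ i → a ∈ Hs j := by
      intro i hi
      have h1 : (S.erase (Hs i)).inf id ≠ sInf HH :=
        hSmin _ (Finset.card_erase_lt_of_mem (hHsS i hi))
          fun H hH => hSH H (Finset.mem_of_mem_erase hH)
      have h2 : ¬ (S.erase (Hs i)).inf id ≤ sInf HH := by
        intro h3
        apply h1
        refine le_antisymm h3 ?_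
        rw [← hSinf]
        exact Finset.inf_mono (Finset.erase_subset _ _)
      obtain ⟨a, ha1, ha2⟩ := SetLike.not_le_iff_exists.1 h2
      have h3 : ∀ H ∈ S.erase (Hs i), a ∈ H := by
        intro H hH
        exact (Finset.inf_le hH : (S.erase (Hs i)).inf id ≤ id H) ha1
      refine ⟨a, ?_, ?_⟩
      · intro h4
        apply ha2
        rw [← hSinf, Finset.inf_id_eq_sInf, mem_sInf]
        intro H hH
        by_cases h5 : H = Hs i
        · rw [h5]; exact h4
        · exact h3 H (Finset.mem_erase.2 ⟨h5, hH⟩)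
      · intro j hj hji
        exact h3 _ (Finset.mem_erase.2 ⟨fun h => hji (hHsinj j i hj hi h), hHsS j hj⟩)
    -- nilpotency class
    have h0lt : 0 < S.card := by omega
    have h1lt : 1 < S.card := by omega
    have hLL : FF G S.card = ⊥ := by
      have n0 := hnorm _ (hSH _ (hHsS 0 h0lt))
      have n1 := hnorm _ (hSH _ (hHsS 1 h1lt))
      have hsup : Hs 0 ⊔ Hs 1 = ⊤ := by
        have h2 : (Hs 0 ⊔ Hs 1).index ∣ p := by
          have h3 := Subgroup.index_dvd_of_le (le_sup_left : Hs 0 ≤ Hs 0 ⊔ Hs 1)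
          rwa [(hSH _ (hHsS 0 h0lt)).1] at h3
        rcases (Nat.dvd_prime hp).1 h2 with h3 | h3
        · exact Subgroup.index_eq_one.1 h3
        · exfalso
          obtain ⟨a, ha1, ha2⟩ := hdual 0 h0lt
          have h4 := Subgroup.relIndex_mul_index (le_sup_left : Hs 0 ≤ Hs 0 ⊔ Hs 1)
          rw [h3, (hSH _ (hHsS 0 h0lt)).1] at h4
          have h5 : (Hs 0).relIndex (Hs 0 ⊔ Hs 1) = 1 :=
            Nat.eq_of_mul_eq_mul_right hp.pos (by rw [h4, one_mul])
          have h6 := Subgroup.relIndex_eq_one.1 h5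
          exact ha1 (h6 ((le_sup_right : Hs 1 ≤ Hs 0 ⊔ Hs 1) (ha2 1 h1lt (by norm_num))))
      have h2 := fitting (Hs 0) (Hs 1) hsup c
        (hQc _ (hSH _ (hHsS 0 h0lt)).2.1 (hSH _ (hHsS 0 h0lt)).2.2)
        (hQc _ (hSH _ (hHsS 1 h1lt)).2.1 (hSH _ (hHsS 1 h1lt)).2.2)
      rw [eq_bot_iff, ← h2, hK1]
      exact Subgroup.lowerCentralSeries_antitone _ (by omega)
    refine ⟨⊤, inferInstance, ?_, ?_⟩
    · intro g _
      by_cases hg : ∃ i < S.card, g ∈ Hs i
      · obtain ⟨i, hi, hgi⟩ := hg
        exact (hSH _ (hHsS i hi)).2.1 g hgi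
      push Not at hg
      -- elements `b i`
      have hb : ∀ i < K1, ∃ b : G, (b)⁻¹ * g ∈ Hs i ∧ ∀ j < S.card, j ≠ i → b ∈ Hs j := by
        intro i hi
        have hi' : i < S.card := by omega
        obtain ⟨a, ha1, ha2⟩ := hdual i hi'
        have n0 := hnorm _ (hSH _ (hHsS i hi'))
        have hcard : Nat.card (G ⧸ Hs i) = p := (hSH _ (hHsS i hi')).1
        have hane : (QuotientGroup.mk a : G ⧸ Hs i) ≠ 1 := fun h =>
          ha1 ((QuotientGroup.eq_one_iff a).1 h)
        obtain ⟨m, hm⟩ := mem_powers_of_prime_card (g' := (QuotientGroup.mk g : G ⧸ Hs i))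
          hcard hane
        refine ⟨a ^ m, ?_, fun j hj hji => (Hs j).pow_mem (ha2 j hj hji) m⟩
        rw [← QuotientGroup.eq]
        exact hm
      choose! b hb1 hb2 using hb
      set Pt := pr b K1 (fun _ => true) with hPt
      have hlast : ∀ j < K1, Pt⁻¹ * g ∈ Hs j := by
        intro j hj
        have hj' : j < S.card := by omega
        have n0 := hnorm _ (hSH _ (hHsS j hj'))
        have h2 := (pr_mod (Hs j) b j K1 fun i hi hij => hb2 i hi j hj' (Ne.symm hij)).2 hj
        have h3 : Pt⁻¹ * g = ((b j)⁻¹ * Pt)⁻¹ * ((b j)⁻¹ * g) := by group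
        rw [h3]
        exact (Hs j).mul_mem ((Hs j).inv_mem h2) (hb1 j hj)
      let a : ℕ → G := Function.update b K1 (Pt⁻¹ * g)
      have hpa : pr a S.card (fun _ => true) = g := by
        rw [hK1]
        show pr a K1 (fun _ => true) * a K1 = g
        have h2 : pr a K1 (fun _ => true) = Pt := by
          refine pr_congr a b K1 _ fun i hi => ?_
          exact Function.update_of_ne hi.ne _ _
        have h3 : a K1 = Pt⁻¹ * g := Function.update_self _ _ _
        rw [h2, h3, mul_inv_cancel_left]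
      have ha : ∀ i < S.card, ∀ j < S.card, j ≠ i → a j ∈ Hs i := by
        intro i hi j hj hji
        by_cases hjK : j = K1
        · have h3 : a j = Pt⁻¹ * g := by rw [hjK]; exact Function.update_self _ _ _
          rw [h3]
          exact hlast i (by omega)
        · have h3 : a j = b j := Function.update_of_ne hjK _ _
          rw [h3]
          exact hb2 j (by omega) i hi (Ne.symm hji)
      have h2 := corner_pow (FF G) FF_mono FF_comm (fun g => mem_top g) S.card hLL a p (by
        rintro β ⟨i, hi, hβ⟩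
        exact (hSH _ (hHsS i hi)).2.1 _ (pr_mem (Hs i) a i S.card β hβ (ha i hi)))
      rw [hpa] at h2
      exact h2
    · rw [Subgroup.index_top]
      exact Nat.one_le_pow _ _ hp.pos

end Pool.Agent.Helper958.ExpP
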