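import Mathlib
import Pool.Agent.Helper958.ExpP.Fit

/-!
# Groups of exponent 3 have class at most 3 (Levi - van der Waerden)
-/

set_option autoImplicit false

namespace Pool.Agent.Helper958.ExpP

open scoped commutatorElement
open Subgroup

variable {Γ : Type} [Group Γ]

theorem ring3 {R : Type} [Ring R] (h3 : ∀ r : R, r + r + r = 0) (ρ : Γ →* R)
    (h : ∀ y, (ρ y - 1) * (ρ y - 1) = 0) (y z w : Γ) :
    (ρ y - 1) * (ρ z - 1) * (ρ w - 1) = 0 := by
  have hD : ∀ y z, ρ (y * z) - 1 = (ρ y - 1) * (ρ z - 1) + (ρ y - 1) + (ρ z - 1) := by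
    intro y z
    rw [map_mul]
    noncomm_ring
  have hE : ∀ y z, (ρ y - 1) * (ρ z - 1) * (ρ y - 1) * (ρ z - 1) +
      (ρ y - 1) * (ρ z - 1) * (ρ y - 1) + (ρ z - 1) * (ρ y - 1) * (ρ z - 1) +
      (ρ y - 1) * (ρ z - 1) + (ρ z - 1) * (ρ y - 1) = 0 := by
    intro y z
    have h1 := h (y * z)
    rw [hD] at h1
    have hy := h y
    have hz := h z
    generalize ρ y - 1 = Y at *
    generalize ρ z - 1 = Z at *
    have e : (Y * Z + Y + Z) * (Y * Z + Y + Z) =
      Y * Z * Y * Z + Y * Z * Y + Y * (Z * Z) + (Y * Y) * Z + Y * Y + Y * Z + Z * Y * Z +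
        Z * Y + Z * Z := by noncomm_ring
    rw [e, hy, hz] at h1
    simp only [mul_zero, zero_mul, add_zero] at h1
    rw [← h1]
    abel
  have hYZY : ∀ y z, (ρ y - 1) * (ρ z - 1) * (ρ y - 1) = 0 := by
    intro y z
    have h1 := congrArg (fun r => (ρ y - 1) * r) (hE y z)
    have hy := h y
    have hz : ρ z * ρ z⁻¹ = 1 := by rw [← map_mul, mul_inv_cancel, map_one]
    simp only [mul_zero] at h1
    have e : (ρ y - 1) * ((ρ y - 1) * (ρ z - 1) * (ρ y - 1) * (ρ z - 1) +
      (ρ y - 1) * (ρ z - 1) * (ρ y - 1) + (ρ z - 1) * (ρ y - 1) * (ρ z - 1) +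
      (ρ y - 1) * (ρ z - 1) + (ρ z - 1) * (ρ y - 1)) =
      ((ρ y - 1) * (ρ y - 1)) * ((ρ z - 1) * (ρ y - 1) * (ρ z - 1) +
        (ρ z - 1) * (ρ y - 1) + (ρ z - 1)) +
      ((ρ y - 1) * (ρ z - 1) * (ρ y - 1)) * ρ z := by noncomm_ring
    rw [e, hy, zero_mul, zero_add] at h1
    have h2 := congrArg (fun r => r * ρ z⁻¹) h1
    simp only [zero_mul] at h2
    rw [mul_assoc, hz, mul_one] at h2
    exact h2
  have hanti : ∀ y z, (ρ y - 1) * (ρ z - 1) + (ρ z - 1) * (ρ y - 1) = 0 := by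
    intro y z
    have h1 := hE y z
    rw [hYZY y z, hYZY z y, zero_mul, zero_add, zero_add, zero_add] at h1
    exact h1
  have h1 := hanti y (z * w)
  rw [hD] at h1
  have h2 := hanti y z
  have h4 := hanti y w
  generalize ρ y - 1 = Y at *
  generalize ρ z - 1 = Z at *
  generalize ρ w - 1 = W at *
  have e : Y * (Z * W + Z + W) + (Z * W + Z + W) * Y =
      (Y * Z + Z * Y) + (Y * W + W * Y) + Y * Z * W + Z * (Y * W + W * Y) - (Y * Z + Z * Y) * W +
        Y * Z * W := by noncomm_ring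
  rw [e, h2, h4, mul_zero, zero_mul] at h1
  simp only [zero_add, add_zero, sub_zero] at h1
  have h5 := h3 (Y * Z * W)
  rw [h1, zero_add] at h5
  exact h5

theorem conj_comm (hexp : ∀ g : Γ, g ^ 3 = 1) (x y : Γ) :
    x * (y * x * y⁻¹) = (y * x * y⁻¹) * x := by
  have hinv : ∀ g : Γ, g⁻¹ = g * g := by
    intro g
    have h := hexp g
    rw [pow_succ, pow_two] at h
    exact inv_eq_of_mul_eq_one_left h
  have h1 := hinv (x * y)
  have h2 := hinv (x * y⁻¹)
  rw [mul_inv_rev] at h1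
  rw [mul_inv_rev, inv_inv] at h2
  -- y⁻¹ x⁻¹ = x y x y ; y x⁻¹ = x y⁻¹ x y⁻¹
  have e1 : x * y * x = y⁻¹ * x⁻¹ * y⁻¹ := by
    rw [h1]; group
  have e2 : y * x * y⁻¹ * x = y * (x * y⁻¹ * x * y⁻¹) * y := by group
  have e3 : y * (y * x⁻¹) * y = y * y * x⁻¹ * y := by group
  have e4 : x * (y * x * y⁻¹) = (x * y * x) * y⁻¹ := by group
  have hy : y⁻¹ = y * y := hinv y
  have hy2 : y⁻¹ * y⁻¹ = y := by
    have := hinv y⁻¹
    rw [inv_inv] at this
    exact this.symm
  have h2' : x * y⁻¹ * x * y⁻¹ = y * x⁻¹ := by rw [h2]; group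
  calc x * (y * x * y⁻¹) = (x * y * x) * y⁻¹ := e4
    _ = y⁻¹ * x⁻¹ * (y⁻¹ * y⁻¹) := by rw [e1]; group
    _ = y⁻¹ * x⁻¹ * y := by rw [hy2]
    _ = (y * y) * x⁻¹ * y := by rw [← hy]
    _ = y * (y * x⁻¹) * y := by group
    _ = y * (x * y⁻¹ * x * y⁻¹) * y := by rw [h2']
    _ = y * x * y⁻¹ * x := by group

theorem three_aux {A : Type} [CommGroup A] (ι : A →* Γ) (hι : Function.Injective ι)
    (c : Γ →* MulAut A) (hc : ∀ y a, ι (c y a) = y * ι a * y⁻¹) (hexp : ∀ g : Γ, g ^ 3 = 1)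
    (a : A) (y z w : Γ) : ⁅⁅⁅ι a, y⁆, z⁆, w⁆ = 1 := by
  let ρ : Γ →* AddMonoid.End (Additive A) :=
    { toFun := fun y => MonoidHom.toAdditive (c y).toMonoidHom
      map_one' := by
        apply AddMonoidHom.ext
        intro x
        show Additive.ofMul (c 1 (Additive.toMul x)) = x
        rw [map_one]
        rfl
      map_mul' := by
        intro y z
        apply AddMonoidHom.ext
        intro x
        show Additive.ofMul (c (y * z) (Additive.toMul x)) =
          Additive.ofMul (c y (c z (Additive.toMul x)))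
        rw [map_mul]
        rfl }
  have hρ : ∀ (y : Γ) (x : Additive A),
      ι (Additive.toMul (ρ y x)) = y * ι (Additive.toMul x) * y⁻¹ := by
    intro y x
    exact hc y (Additive.toMul x)
  have hinj : ∀ x x' : Additive A, ι (Additive.toMul x) = ι (Additive.toMul x') → x = x' :=
    fun x x' h => Additive.toMul.injective (hι h)
  have hadd : ∀ x x' : Additive A, ι (Additive.toMul (x + x')) =
      ι (Additive.toMul x) * ι (Additive.toMul x') := by
    intro x x'
    rw [toMul_add, map_mul]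
  have hneg : ∀ x : Additive A, ι (Additive.toMul (-x)) = (ι (Additive.toMul x))⁻¹ := by
    intro x
    rw [toMul_neg, map_inv]
  have hzero : ι (Additive.toMul (0 : Additive A)) = 1 := by
    rw [toMul_zero, map_one]
  have hD : ∀ (y : Γ) (x : Additive A),
      ι (Additive.toMul ((ρ y - 1) x)) = ⁅ι (Additive.toMul x), y⁆⁻¹ := by
    intro y x
    have e0 : (ρ y - 1) x = ρ y x + -x := by
      rw [← sub_eq_add_neg]
      rfl
    rw [e0, hadd, hneg, hρ, commutatorElement_def]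
    group
  have hD' : ∀ (y : Γ) (x : Additive A),
      ι (Additive.toMul (-((ρ y - 1) x))) = ⁅ι (Additive.toMul x), y⁆ := by
    intro y x
    rw [hneg, hD, inv_inv]
  have hsq : ∀ y, (ρ y - 1) * (ρ y - 1) = 0 := by
    intro y
    apply AddMonoidHom.ext
    intro x
    apply hinj
    show ι (Additive.toMul ((ρ y - 1) ((ρ y - 1) x))) = ι (Additive.toMul (0 : Additive A))
    rw [hzero, hD, hD, inv_eq_one, commutatorElement_eq_one_iff_mul_comm]
    have h1 := conj_comm hexp y (ι (Additive.toMul x))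
    have h2 : ⁅ι (Additive.toMul x), y⁆⁻¹ =
        y * (ι (Additive.toMul x) * y * (ι (Additive.toMul x))⁻¹)⁻¹ := by
      rw [commutatorElement_def]
      group
    rw [h2]
    set t := ι (Additive.toMul x) * y * (ι (Additive.toMul x))⁻¹ with ht
    have h3 : Commute y t⁻¹ := Commute.inv_right h1
    rw [mul_assoc, ← h3.eq]
  have h3 : ∀ r : AddMonoid.End (Additive A), r + r + r = 0 := by
    intro r
    apply AddMonoidHom.ext
    intro x
    apply hinj
    show ι (Additive.toMul (r x + r x + r x)) = ι (Additive.toMul (0 : Additive A))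
    rw [hadd, hadd, hzero]
    have h := hexp (ι (Additive.toMul (r x)))
    rw [pow_succ, pow_two] at h
    exact h
  have h := ring3 h3 ρ hsq w z y
  have h1 : ⁅⁅⁅ι a, y⁆, z⁆, w⁆ =
      ι (Additive.toMul (-((ρ w - 1) (-((ρ z - 1) (-((ρ y - 1) (Additive.ofMul a)))))))) := by
    rw [hD', hD', hD']
    rfl
  rw [h1]
  have h2 : (-((ρ w - 1) (-((ρ z - 1) (-((ρ y - 1) (Additive.ofMul a))))))) =
      -(((ρ w - 1) * (ρ z - 1) * (ρ y - 1)) (Additive.ofMul a)) := by
    simp only [map_neg, neg_neg]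
    rfl
  rw [h2, h]
  show ι (Additive.toMul (-(0 : Additive A))) = 1
  rw [neg_zero, hzero]

theorem three_class (hexp : ∀ g : Γ, g ^ 3 = 1) : LL Γ 3 = ⊥ := by
  have key : ∀ a y z w : Γ, ⁅⁅⁅a, y⁆, z⁆, w⁆ = 1 := by
    intro a y z w
    have hcomm : ∀ x ∈ Group.conjugatesOfSet ({a} : Set Γ),
        ∀ x' ∈ Group.conjugatesOfSet ({a} : Set Γ), x * x' = x' * x := by
      intro x hx x' hx'
      rw [Group.mem_conjugatesOfSet_iff] at hx hx'
      obtain ⟨b, hb, hbx⟩ := hx
      obtain ⟨b', hb', hbx'⟩ := hx'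
      rw [Set.mem_singleton_iff] at hb hb'
      subst hb
      subst hb'
      obtain ⟨g, rfl⟩ := isConj_iff.1 hbx
      obtain ⟨g', rfl⟩ := isConj_iff.1 hbx'
      have h1 := conj_comm hexp (g * b' * g⁻¹) (g' * g⁻¹)
      have e : g' * g⁻¹ * (g * b' * g⁻¹) * (g' * g⁻¹)⁻¹ = g' * b' * g'⁻¹ := by group
      rw [e] at h1
      exact h1
    letI : CommGroup (normalClosure ({a} : Set Γ)) :=
      Subgroup.closureCommGroupOfComm hcomm
    have h := three_aux (normalClosure ({a} : Set Γ)).subtype (Subgroup.subtype_injective _)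
      MulAut.conjNormal (fun y x => MulAut.conjNormal_apply y x) hexp
      ⟨a, subset_normalClosure (Set.mem_singleton a)⟩ y z w
    exact h
  have h1 : LL Γ 1 ≤ Subgroup.upperCentralSeries Γ 2 := by
    show ⁅(⊤ : Subgroup Γ), (⊤ : Subgroup Γ)⁆ ≤ _
    rw [commutator_le]
    intro a _ y _
    rw [Subgroup.mem_upperCentralSeries_succ_iff]
    intro z
    rw [Subgroup.mem_upperCentralSeries_succ_iff]
    intro w
    rw [Subgroup.upperCentralSeries_zero, mem_bot]
    exact key a y z w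
  have h2 : LL Γ 2 ≤ Subgroup.upperCentralSeries Γ 1 :=
    (commutator_mono h1 le_rfl).trans (Subgroup.commutator_upperCentralSeries_top_le Γ 1)
  have h3 : LL Γ 3 ≤ Subgroup.upperCentralSeries Γ 0 :=
    (commutator_mono h2 le_rfl).trans (Subgroup.commutator_upperCentralSeries_top_le Γ 0)
  rw [Subgroup.upperCentralSeries_zero] at h3
  exact le_bot_iff.1 h3

theorem two_class (hexp : ∀ g : Γ, g ^ 2 = 1) : LL Γ 1 = ⊥ := by
  rw [eq_bot_iff]
  show ⁅(⊤ : Subgroup Γ), (⊤ : Subgroup Γ)⁆ ≤ _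
  rw [commutator_le]
  intro a _ b _
  have hinv : ∀ g : Γ, g⁻¹ = g := by
    intro g
    have h := hexp g
    rw [pow_two] at h
    exact inv_eq_of_mul_eq_one_left h
  rw [mem_bot, commutatorElement_eq_one_iff_mul_comm]
  have h := hinv (a * b)
  rw [mul_inv_rev, hinv, hinv] at h
  exact h.symm

end Pool.Agent.Helper958.ExpP
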